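import Pool.Agent.Helper66.SokStep

set_option autoImplicit false

open Set Filter Topology Cardinal Pool.Agent.Helper66

namespace Pool.Agent.Results.MP_719d1c_gt.SmallDensity

universe u

/-- Uncountable cardinals below aleph omega do not have countable cofinality. -/
theorem no_cof {ν : Cardinal.{u}} (h0 : ℵ₀ < ν) (h1 : ν < aleph Ordinal.omega0)
    (hc : ν.ord.cof = ℵ₀) : False := by
  obtain ⟨o, ho⟩ := Cardinal.mem_range_aleph_iff.2 h0.le
  rw [← ho, Cardinal.aleph_lt_aleph] at h1
  obtain ⟨n, rfl⟩ := Ordinal.lt_omega0.1 h1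
  cases n with
  | zero =>
    rw [← ho] at h0
    simp at h0
  | succ n =>
    have h2 : Cardinal.IsRegular (aleph ((n : Ordinal) + 1)) := Cardinal.isRegular_aleph_add_one _
    have h3 := h2.cof_ord
    have h4 : ((n + 1 : ℕ) : Ordinal) = (n : Ordinal) + 1 := by push_cast; rfl
    rw [h4] at ho
    rw [ho] at h3
    rw [hc] at h3
    exact absurd h3 h0.ne

/-- If `X` is a Sokolov compact space with a dense set `T` such that either `T` has at most
`ℵ_ω` points, or every `D ⊆ X` whose cardinality is uncountable, of countable cofinality and less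
than that of `T` has a closure whose points are separated by at most `#D` continuous functions,
then `C_p(X)` condenses, by a linear map, into a Sigma-product of real lines. -/
theorem result (X : Type u) [TopologicalSpace X] [CompactSpace X] [T2Space X]
    (hS : ∀ F : (n : ℕ) → Set (Fin n → X), (∀ n, IsClosed (F n)) →
        ∃ f : X → X, Continuous f ∧
          (∃ N : Set (Set X), N.Countable ∧
            ∀ x ∈ Set.range f, ∀ U : Set X, IsOpen U → x ∈ U →
              ∃ A ∈ N, x ∈ A ∧ A ⊆ U ∩ Set.range f) ∧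
          ∀ n, ∀ x ∈ F n, f ∘ x ∈ F n)
    (T : Set X) (hT : Dense T)
    (hM : #T ≤ aleph Ordinal.omega0 ∨
      ∀ D : Set X, ℵ₀ < #D → #D < #T → (#D).ord.cof = ℵ₀ →
        ∃ S : Set C(X, ℝ), #S ≤ #D ∧
          ∀ x ∈ closure D, ∀ y ∈ closure D, (∀ g ∈ S, g x = g y) → x = y) :
    ∃ (κ : Type u) (Φ : {g : X → ℝ // Continuous g} → (κ → ℝ)),
      Continuous Φ ∧ Function.Injective Φ ∧
        (∀ g, (Function.support (Φ g)).Countable) ∧
        ∀ a, ∃ L : (X → ℝ) →L[ℝ] ℝ, ∀ g, Φ g a = L g.1 := by
  have hS' : IsSok X := hS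
  have hM' : MonCof X (max #T (aleph 1)) := by
    intro D h0 h1 hc
    have h2 : #D < #T := by
      rcases lt_max_iff.1 h1 with h | h
      · exact h
      · rw [← Cardinal.succ_aleph0] at h
        exact absurd h0 (not_lt.2 (Order.lt_succ_iff.1 h))
    rcases hM with h | h
    · exact (no_cof h0 (lt_of_lt_of_le h2 h) hc).elim
    · exact h D h0 h2 hc
  have hμ : ℵ₀ < max #T (aleph 1) := lt_of_lt_of_le Cardinal.aleph0_lt_aleph_one (le_max_right _ _)
  let q : X → (Unit → X) := fun x _ => x
  obtain ⟨A, φ, h1, h2, h3⟩ := hS'.good _ hμ hM' (I := Unit) (fun _ => 1) (q '' T)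
    (Cardinal.mk_image_le.trans (le_max_left _ _))
  refine ⟨A, fun g a => φ a g.1, ?_, ?_, ?_, fun a => ⟨φ a, fun g => rfl⟩⟩
  · refine continuous_pi fun a => ?_
    exact (φ a).continuous.comp continuous_subtype_val
  · intro g h hgh
    let G : C(X, ℝ) := ⟨g.1, g.2⟩ - ⟨h.1, h.2⟩
    have hG : (G : X → ℝ) = g.1 - h.1 := rfl
    have h4 : ∀ a, φ a G = 0 := by
      intro a
      rw [hG, map_sub, sub_eq_zero]
      exact congrFun hgh a
    have h5 : ∀ t ∈ T, G t = 0 := by
      intro t ht
      have := h1 G h4 (q t) ⟨t, ht, rfl⟩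
      simpa [ev_apply, q] using this
    have h6 : ∀ x, G x = 0 := by
      have h7 : closure T ⊆ {x | G x = 0} :=
        closure_minimal h5 (isClosed_eq G.continuous continuous_const)
      intro x
      exact h7 (hT x)
    apply Subtype.ext
    funext x
    have := h6 x
    rw [hG] at this
    exact sub_eq_zero.1 this
  · intro g
    exact h2 ⟨g.1, g.2⟩

end Pool.Agent.Results.MP_719d1c_gt.SmallDensity
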